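import Pool.Agent.K1H44.AL.Plan

/-!
Project AL (helper44, MP_88bd62_nt): piece BASE.
-/

set_option autoImplicit false

namespace Pool.Agent.K1H92.AL

open Pool.Agent.K1H44.AL Pool.Agent.R751.Flower

theorem fN_eq {α : Type} (n : ℕ) (f : ℕ → α) : fN n f = f n := by
  cases n <;> rfl

theorem fZ_eq {α : Type} (z : ℤ) (f : ℤ → α) : fZ z f = f z := by
  cases z with
  | ofNat n => exact fN_eq n fun m => f (Int.ofNat m)
  | negSucc n => exact fN_eq n fun m => f (Int.negSucc m)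

theorem fB_eq {α : Type} (w : CB) (f : CB → α) : fB w f = f w := by
  rw [fB, fZ_eq, fZ_eq, fN_eq]

theorem ex_neg_conj (x : ℝ) : ex (-x) = (starRingEnd ℂ) (ex x) := by
  unfold ex
  rw [← Complex.exp_conj]
  congr 1
  rw [map_mul, Complex.conj_I, Complex.conj_ofReal]
  push_cast
  ring

theorem ex_sub_le (x y : ℝ) : ‖ex x - ex y‖ ≤ 2 * Real.pi * |x - y| := by
  have h1 : ex x - ex y = ex y * (Complex.exp (Complex.I * ((2 * Real.pi * (x - y) : ℝ) : ℂ)) - 1) := by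
    unfold ex
    rw [mul_sub, ← Complex.exp_add, mul_one]
    congr 2
    push_cast
    ring
  have h2 : ‖ex y‖ = 1 := by
    unfold ex
    rw [Complex.norm_exp_ofReal_mul_I]
  rw [h1, norm_mul, h2, one_mul]
  have h3 := Real.norm_exp_I_mul_ofReal_sub_one_le (x := 2 * Real.pi * (x - y))
  rw [Real.norm_eq_abs, abs_mul, abs_of_pos (by positivity : (0 : ℝ) < 2 * Real.pi)] at h3
  exact h3

theorem hl_close (d : Dt) (h : okD d = true) :
    |hl d.n - (d.m : ℝ) / 2 ^ 36| ≤ 1 / 2 ^ 28 := by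
  simp only [okD, Bool.and_eq_true, Nat.ble_eq] at h
  obtain ⟨hn, hb1, hb2, h1, h2, h3, h4⟩ := h
  have hl2 : 0 < Real.log 2 := Real.log_pos (by norm_num)
  have hb1' : (0 : ℝ) < d.b1 := by exact_mod_cast hb1
  have hb2' : (0 : ℝ) < d.b2 := by exact_mod_cast hb2
  have hn' : (0 : ℝ) < d.n := by exact_mod_cast hn
  have e1 : (d.a1 : ℝ) / d.b1 ≤ Real.log d.n / Real.log 2 := by
    rw [div_le_div_iff₀ hb1' hl2]
    have h5 : ((2 : ℝ) ^ d.a1) ≤ (d.n : ℝ) ^ d.b1 := by exact_mod_cast h1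
    have h6 := Real.log_le_log (by positivity) h5
    rw [Real.log_pow, Real.log_pow] at h6
    linarith
  have e2 : Real.log d.n / Real.log 2 ≤ (d.a2 : ℝ) / d.b2 := by
    rw [div_le_div_iff₀ hl2 hb2']
    have h5 : (d.n : ℝ) ^ d.b2 ≤ ((2 : ℝ) ^ d.a2) := by exact_mod_cast h2
    have h6 := Real.log_le_log (by positivity) h5
    rw [Real.log_pow, Real.log_pow] at h6
    linarith
  have e3 : (d.m : ℝ) / 2 ^ 35 - 1 / 2 ^ 27 ≤ (d.a1 : ℝ) / d.b1 := by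
    rw [le_div_iff₀ hb1']
    have h5 : (d.m : ℝ) * d.b1 ≤ 2 ^ 35 * d.a1 + 256 * d.b1 := by exact_mod_cast h3
    have h6 : ((d.m : ℝ) / 2 ^ 35 - 1 / 2 ^ 27) * d.b1 = (d.m * d.b1 - 256 * d.b1) / 2 ^ 35 := by
      ring
    rw [h6, div_le_iff₀ (by positivity)]
    linarith
  have e4 : (d.a2 : ℝ) / d.b2 ≤ (d.m : ℝ) / 2 ^ 35 + 1 / 2 ^ 27 := by
    rw [div_le_iff₀ hb2']
    have h5 : 2 ^ 35 * (d.a2 : ℝ) ≤ ((d.m : ℝ) + 256) * d.b2 := by exact_mod_cast h4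
    have h6 : ((d.m : ℝ) / 2 ^ 35 + 1 / 2 ^ 27) * d.b2 = ((d.m + 256) * d.b2) / 2 ^ 35 := by
      ring
    rw [h6, le_div_iff₀ (by positivity)]
    linarith
  have h7 : hl d.n - (d.m : ℝ) / 2 ^ 36 = (Real.log d.n / Real.log 2 - (d.m : ℝ) / 2 ^ 35) / 2 := by
    rw [hl]
    ring
  rw [h7, abs_le]
  constructor <;> linarith

theorem t_BASE : S_BASE := by
  intro d hd
  have h1 := hl_close d hd
  have h2 := good_E 36 d.m le_rfl
  rw [base, fB_eq]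
  unfold In
  unfold Good at h2
  simp only
  have h3 : ‖((PP : ℤ) : ℂ) * ex (-((d.m : ℝ) / 2 ^ 36)) -
      ((((E 36 d.m).a : ℤ) : ℂ) + (((-(E 36 d.m).b : ℤ)) : ℂ) * Complex.I)‖ ≤ ((E 36 d.m).e : ℝ) := by
    rw [← Complex.norm_conj]
    refine le_trans (le_of_eq ?_) h2
    congr 1
    rw [map_sub, map_mul, map_add, map_mul, Complex.conj_I, ex_neg_conj, Complex.conj_conj]
    simp only [map_intCast]
    push_cast
    ring
  have h4 : ‖((PP : ℤ) : ℂ) * ex (-(hl d.n)) - ((PP : ℤ) : ℂ) * ex (-((d.m : ℝ) / 2 ^ 36))‖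
      ≤ 2 ^ 103 := by
    rw [← mul_sub, norm_mul]
    have h5 : ‖((PP : ℤ) : ℂ)‖ = 2 ^ 128 := by
      rw [Complex.norm_intCast, PP]
      norm_num
    have h6 : ‖ex (-(hl d.n)) - ex (-((d.m : ℝ) / 2 ^ 36))‖ ≤ 1 / 2 ^ 25 := by
      refine (ex_sub_le _ _).trans ?_
      rw [show -(hl d.n) - -((d.m : ℝ) / 2 ^ 36) = -(hl d.n - (d.m : ℝ) / 2 ^ 36) by ring, abs_neg]
      have h7 := Real.pi_lt_four
      calc 2 * Real.pi * |hl d.n - (d.m : ℝ) / 2 ^ 36| ≤ 2 * 4 * (1 / 2 ^ 28) := by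
            apply mul_le_mul (by linarith) h1 (abs_nonneg _) (by norm_num)
        _ = 1 / 2 ^ 25 := by norm_num
    rw [h5]
    calc (2 : ℝ) ^ 128 * _ ≤ 2 ^ 128 * (1 / 2 ^ 25) :=
          mul_le_mul_of_nonneg_left h6 (by positivity)
      _ = 2 ^ 103 := by norm_num
  have h5 := norm_add_le (((PP : ℤ) : ℂ) * ex (-(hl d.n)) - ((PP : ℤ) : ℂ) * ex (-((d.m : ℝ) / 2 ^ 36)))
    (((PP : ℤ) : ℂ) * ex (-((d.m : ℝ) / 2 ^ 36)) -
      ((((E 36 d.m).a : ℤ) : ℂ) + (((-(E 36 d.m).b : ℤ)) : ℂ) * Complex.I))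
  rw [sub_add_sub_cancel] at h5
  refine h5.trans ?_
  push_cast
  push_cast at h3 h4
  linarith

end Pool.Agent.K1H92.AL
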